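import Mathlib

set_option autoImplicit false

/-!
# MP_5675d3_gt: the rank of a Noetherian base cannot always be lowered to a cardinal

There is a locally compact, first countable Hausdorff space `X` with a Noetherian base `B`
consisting of compact open sets such that `rank B = ω + 1`, and every base contained in `B` has
rank `ω + 1` as well.  So the answer to Q1 is negative, also for locally compact Hausdorff spaces.

The space is the space `Ψ` over an uncountable set `P` (here `P = ℝ`): the points of `P` are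
isolated, the other points are the members `A` of a maximal almost disjoint family of countably
infinite subsets of `P`, and the basic neighbourhoods of `A` are `{A}` together with the tails of a
fixed enumeration of `A`.
-/

open Set TopologicalSpace

universe u

namespace Pool.Agent.Results.MP_5675d3_gt.PsiSpace

/-- A family `𝒜` of sets is Noetherian if it is nonempty, does not contain the empty set and has no
infinite strictly increasing chain of members. -/
def IsNoetherianFamily {X : Type u} (𝒜 : Set (Set X)) : Prop :=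
  𝒜.Nonempty ∧ ∅ ∉ 𝒜 ∧ ¬ ∃ f : ℕ → Set X, (∀ n, f n ∈ 𝒜) ∧ ∀ n, f n ⊂ f (n + 1)

/-- A Noetherian base of a space: a base of the topology which is a Noetherian family. -/
def IsNoetherianBase {X : Type u} [TopologicalSpace X] (𝒜 : Set (Set X)) : Prop :=
  IsTopologicalBasis 𝒜 ∧ IsNoetherianFamily 𝒜

/-- The layer `𝒜_i`: the set of the `⊆`-maximal elements of `𝒜 \ ⋃_{j < i} 𝒜_j`. -/
def layer {X : Type u} (𝒜 : Set (Set X)) (i : Ordinal.{u}) : Set (Set X) :=
  {A | Maximal (fun B => B ∈ 𝒜 ∧ ∀ j : Ordinal.{u}, ∀ _ : j < i, B ∉ layer 𝒜 j) A}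
termination_by i

/-- The rank of a family: the least ordinal `α` such that `𝒜 = ⋃_{i < α} 𝒜_i`. -/
noncomputable def rank {X : Type u} (𝒜 : Set (Set X)) : Ordinal.{u} :=
  sInf {α : Ordinal.{u} | 𝒜 = ⋃ i ∈ Set.Iio α, layer 𝒜 i}

/-! ### Layers and ranks -/

section General

variable {X : Type u} {𝒜 : Set (Set X)}

theorem mem_layer_iff (ρ : Set X → Ordinal.{u})
    (h1 : ∀ A ∈ 𝒜, ∀ B ∈ 𝒜, A ⊂ B → ρ B < ρ A)
    (h2 : ∀ A ∈ 𝒜, ∀ j < ρ A, ∃ B ∈ 𝒜, A ⊂ B ∧ j ≤ ρ B) (i : Ordinal.{u}) (A : Set X) :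
    A ∈ layer 𝒜 i ↔ A ∈ 𝒜 ∧ ρ A = i := by
  induction i using WellFoundedLT.induction generalizing A with
  | _ i ih =>
    have key : ∀ B : Set X, (B ∈ 𝒜 ∧ ∀ j : Ordinal.{u}, ∀ _ : j < i, B ∉ layer 𝒜 j) ↔
        (B ∈ 𝒜 ∧ i ≤ ρ B) := by
      intro B
      constructor
      · rintro ⟨hB, hj⟩
        refine ⟨hB, ?_⟩
        by_contra hlt
        push Not at hlt
        exact hj (ρ B) hlt ((ih (ρ B) hlt B).2 ⟨hB, rfl⟩)
      · rintro ⟨hB, hle⟩
        refine ⟨hB, fun j hj hmem => ?_⟩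
        have := ((ih j hj B).1 hmem).2
        rw [this] at hle
        exact absurd hj (not_lt.2 hle)
    rw [layer, Set.mem_ofPred_eq]
    constructor
    · intro hmax
      have hA := (key A).1 hmax.prop
      refine ⟨hA.1, le_antisymm ?_ hA.2⟩
      by_contra hlt
      push Not at hlt
      obtain ⟨B, hB, hAB, hjB⟩ := h2 A hA.1 i hlt
      exact hAB.2 (hmax.le_of_ge ((key B).2 ⟨hB, hjB⟩) hAB.1)
    · rintro ⟨hA, hi⟩
      refine ⟨(key A).2 ⟨hA, hi.ge⟩, ?_⟩
      intro B hB hAB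
      have hB' := (key B).1 hB
      by_contra hcon
      have := h1 A hA B hB'.1 ⟨hAB, hcon⟩
      rw [hi] at this
      exact absurd this (not_lt.2 hB'.2)

theorem cover_iff (ρ : Set X → Ordinal.{u})
    (h1 : ∀ A ∈ 𝒜, ∀ B ∈ 𝒜, A ⊂ B → ρ B < ρ A)
    (h2 : ∀ A ∈ 𝒜, ∀ j < ρ A, ∃ B ∈ 𝒜, A ⊂ B ∧ j ≤ ρ B) (α : Ordinal.{u}) :
    𝒜 = ⋃ i ∈ Set.Iio α, layer 𝒜 i ↔ ∀ A ∈ 𝒜, ρ A < α := by
  constructor
  · intro h A hA
    rw [h] at hA
    simp only [mem_iUnion, mem_Iio, exists_prop] at hA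
    obtain ⟨i, hi, hA⟩ := hA
    rwa [((mem_layer_iff ρ h1 h2 i A).1 hA).2]
  · intro h
    ext A
    simp only [mem_iUnion, mem_Iio, exists_prop]
    constructor
    · intro hA
      exact ⟨ρ A, h A hA, (mem_layer_iff ρ h1 h2 _ A).2 ⟨hA, rfl⟩⟩
    · rintro ⟨i, -, hA⟩
      exact ((mem_layer_iff ρ h1 h2 i A).1 hA).1

/-- The well-founded relation on the members of a Noetherian family. -/
def Rel (𝒜 : Set (Set X)) (S T : Set X) : Prop := S ∈ 𝒜 ∧ T ∈ 𝒜 ∧ T ⊂ S

theorem wf_rel (h : IsNoetherianFamily 𝒜) : WellFounded (Rel 𝒜) := by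
  rw [wellFounded_iff_isEmpty_descending_chain]
  constructor
  rintro ⟨f, hf⟩
  exact h.2.2 ⟨f, fun n => (hf n).2.1, fun n => (hf n).2.2⟩

/-- The height function of a Noetherian family. -/
noncomputable def height (h : IsNoetherianFamily 𝒜) (S : Set X) : Ordinal.{u} :=
  (wf_rel h).apply S |>.rank

theorem height_lt (h : IsNoetherianFamily 𝒜) {A B : Set X} (hA : A ∈ 𝒜) (hB : B ∈ 𝒜)
    (hAB : A ⊂ B) : height h B < height h A :=
  Acc.rank_lt_of_rel _ ⟨hB, hA, hAB⟩

theorem height_le (h : IsNoetherianFamily 𝒜) {A : Set X} {o : Ordinal.{u}}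
    (ho : ∀ B ∈ 𝒜, A ∈ 𝒜 → A ⊂ B → height h B < o) : height h A ≤ o := by
  unfold height
  rw [Acc.rank_eq]
  refine Ordinal.iSup_le ?_
  rintro ⟨B, hB⟩
  exact Order.succ_le_of_lt (ho B hB.1 hB.2.1 hB.2.2)

theorem exists_of_lt_height (h : IsNoetherianFamily 𝒜) {A : Set X} {j : Ordinal.{u}}
    (hj : j < height h A) : ∃ B ∈ 𝒜, A ⊂ B ∧ j ≤ height h B := by
  by_contra hcon
  push Not at hcon
  exact absurd hj (not_lt.2 (height_le h (fun B hB _ hAB => hcon B hB hAB)))

theorem rank_eq_of (h : IsNoetherianFamily 𝒜) {α : Ordinal.{u}}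
    (hle : ∀ A ∈ 𝒜, height h A ≤ α) (hex : ∃ A ∈ 𝒜, α ≤ height h A) :
    rank 𝒜 = Order.succ α := by
  have hc := cover_iff (𝒜 := 𝒜) (height h) (fun A hA B hB => height_lt h hA hB)
    (fun A _ j hj => exists_of_lt_height h hj)
  unfold rank
  have hset : {β : Ordinal.{u} | 𝒜 = ⋃ i ∈ Set.Iio β, layer 𝒜 i} = Set.Ici (Order.succ α) := by
    ext β
    rw [Set.mem_ofPred_eq, hc β, mem_Ici]
    constructor
    · intro hb
      obtain ⟨A, hA, hA'⟩ := hex
      exact Order.succ_le_of_lt (hA'.trans_lt (hb A hA))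
    · intro hb A hA
      exact (hle A hA).trans_lt (Order.succ_le_iff.1 hb)
  rw [hset]
  exact csInf_Ici

end General

/-! ### A maximal almost disjoint family -/

/-- Almost disjoint families of countably infinite sets of reals. -/
def IsAD (𝒜 : Set (Set ℝ)) : Prop :=
  (∀ A ∈ 𝒜, A.Countable ∧ A.Infinite) ∧ ∀ A ∈ 𝒜, ∀ B ∈ 𝒜, A ≠ B → (A ∩ B).Finite

theorem exists_mad : ∃ 𝒜 : Set (Set ℝ), IsAD 𝒜 ∧
    ∀ S : Set ℝ, S.Infinite → ∃ A ∈ 𝒜, (A ∩ S).Infinite := by
  obtain ⟨𝒜, h𝒜⟩ := zorn_subset {𝒜 : Set (Set ℝ) | IsAD 𝒜} (by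
    intro c hc hchain
    refine ⟨⋃₀ c, ⟨?_, ?_⟩, fun s hs => subset_sUnion_of_mem hs⟩
    · rintro A ⟨𝒞, h𝒞, hA⟩
      exact (hc h𝒞).1 A hA
    · rintro A ⟨𝒞, h𝒞, hA⟩ B ⟨𝒟, h𝒟, hB⟩ hAB
      rcases hchain.total h𝒞 h𝒟 with h | h
      · exact (hc h𝒟).2 A (h hA) B hB hAB
      · exact (hc h𝒞).2 A hA B (h hB) hAB)
  refine ⟨𝒜, h𝒜.prop, ?_⟩
  intro S hS
  by_contra hcon
  push Not at hcon
  have hfin : ∀ A ∈ 𝒜, (A ∩ S).Finite := hcon
  obtain ⟨T, hTS, hT, hTc⟩ : ∃ T ⊆ S, T.Infinite ∧ T.Countable := by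
    refine ⟨Set.range (fun n : ℕ => (hS.natEmbedding S n : ℝ)), ?_, ?_, Set.countable_range _⟩
    · rintro _ ⟨n, rfl⟩
      exact (hS.natEmbedding S n).2
    · refine Set.infinite_range_of_injective ?_
      exact Subtype.val_injective.comp (hS.natEmbedding S).injective
  have hins : insert T 𝒜 ∈ {𝒜 : Set (Set ℝ) | IsAD 𝒜} := by
    refine ⟨?_, ?_⟩
    · rintro A (rfl | hA)
      · exact ⟨hTc, hT⟩
      · exact h𝒜.prop.1 A hA
    · rintro A (rfl | hA) B (rfl | hB) hAB
      · exact absurd rfl hAB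
      · exact (hfin B hB).subset (fun x hx => ⟨hx.2, hTS hx.1⟩)
      · exact (hfin A hA).subset (fun x hx => ⟨hx.1, hTS hx.2⟩)
      · exact h𝒜.prop.2 A hA B hB hAB
  have hTmem : T ∈ 𝒜 := h𝒜.le_of_ge hins (subset_insert _ _) (mem_insert _ _)
  exact hT ((hfin T hTmem).subset (fun x hx => ⟨hx, hTS hx⟩))

/-! ### The space -/

/-- An almost disjoint family given by enumerations: `a i : ℕ → P` injective, two different ones
have only finitely many values in common. -/
structure Fam where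
  /-- the index set -/
  I : Type
  /-- the enumerations -/
  a : I → ℕ → ℝ
  inj : ∀ i, Function.Injective (a i)
  ad : ∀ i j, i ≠ j → {n | a i n ∈ range (a j)}.Finite
  mad : ∀ S : Set ℝ, S.Infinite → ∃ i, {n | a i n ∈ S}.Infinite

theorem exists_fam : Nonempty Fam := by
  obtain ⟨𝒜, hAD, hmad⟩ := exists_mad
  have hden : ∀ A : 𝒜, Nonempty (ℕ ≃ (A : Set ℝ)) := by
    intro A
    have : Countable (A : Set ℝ) := (hAD.1 A A.2).1.to_subtype
    have : Infinite (A : Set ℝ) := (hAD.1 A A.2).2.to_subtype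
    exact (nonempty_equiv_of_countable)
  let e : ∀ A : 𝒜, ℕ ≃ (A : Set ℝ) := fun A => Classical.choice (hden A)
  refine ⟨⟨𝒜, fun A n => (e A n : ℝ), ?_, ?_, ?_⟩⟩
  · intro A m n hmn
    exact (e A).injective (Subtype.ext hmn)
  · intro A B hAB
    have hfin := hAD.2 A A.2 B B.2 (fun h => hAB (Subtype.ext h))
    refine (hfin.preimage (f := fun n => (e A n : ℝ))
      (fun m _ n _ h => (e A).injective (Subtype.ext h))).subset ?_
    rintro n ⟨m, hm⟩
    refine ⟨(e A n).2, ?_⟩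
    show (e A n : ℝ) ∈ (B : Set ℝ)
    have : (e B m : ℝ) = (e A n : ℝ) := hm
    rw [← this]
    exact (e B m).2
  · intro S hS
    obtain ⟨A, hA, hinf⟩ := hmad S hS
    refine ⟨⟨A, hA⟩, ?_⟩
    intro hfin
    apply hinf
    refine (hfin.image (fun n => (e ⟨A, hA⟩ n : ℝ))).subset ?_
    rintro x ⟨hxA, hxS⟩
    refine ⟨(e ⟨A, hA⟩).symm ⟨x, hxA⟩, ?_, ?_⟩
    · show (e ⟨A, hA⟩ ((e ⟨A, hA⟩).symm ⟨x, hxA⟩) : ℝ) ∈ S
      rw [Equiv.apply_symm_apply]
      exact hxS
    · show (e ⟨A, hA⟩ ((e ⟨A, hA⟩).symm ⟨x, hxA⟩) : ℝ) = x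
      rw [Equiv.apply_symm_apply]

/-- The points of the space: the reals and the indices of the family. -/
def Pt (F : Fam) : Type := ℝ ⊕ F.I

variable {F : Fam}

/-- the isolated points -/
def iso (p : ℝ) : Pt F := Sum.inl p

/-- the other points -/
def lim (i : F.I) : Pt F := Sum.inr i

theorem iso_inj {p q : ℝ} (h : (iso p : Pt F) = iso q) : p = q := Sum.inl.inj h

theorem lim_inj {i j : F.I} (h : lim i = lim j) : i = j := Sum.inr.inj h

theorem iso_ne_lim (p : ℝ) (i : F.I) : (iso p : Pt F) ≠ lim i := fun h => by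
  cases h

theorem pt_cases (x : Pt F) : (∃ p, x = iso p) ∨ (∃ i, x = lim i) := by
  cases x with
  | inl p => exact Or.inl ⟨p, rfl⟩
  | inr i => exact Or.inr ⟨i, rfl⟩

instance : TopologicalSpace (Pt F) where
  IsOpen U := ∀ i : F.I, lim i ∈ U → {n | iso (F.a i n) ∉ U}.Finite
  isOpen_univ := by
    intro i _
    simp
  isOpen_inter := by
    intro s t hs ht i hi
    refine ((hs i hi.1).union (ht i hi.2)).subset ?_
    intro n hn
    by_contra hcon
    simp only [mem_union, Set.mem_ofPred_eq, not_or, not_not] at hcon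
    exact hn ⟨hcon.1, hcon.2⟩
  isOpen_sUnion := by
    intro s hs i hi
    obtain ⟨t, ht, hit⟩ := hi
    refine (hs t ht i hit).subset ?_
    intro n hn hnt
    exact hn ⟨t, ht, hnt⟩

theorem isOpen_iff {U : Set (Pt F)} :
    IsOpen U ↔ ∀ i : F.I, lim i ∈ U → {n | iso (F.a i n) ∉ U}.Finite := Iff.rfl

/-- the basic neighbourhoods of the points `lim i` -/
def nb (i : F.I) (n : ℕ) : Set (Pt F) := insert (lim i) {x | ∃ m, n ≤ m ∧ x = iso (F.a i m)}

theorem lim_mem_nb (i : F.I) (n : ℕ) : lim i ∈ nb i n := mem_insert _ _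

theorem lim_mem_nb_iff {i j : F.I} {n : ℕ} : lim j ∈ nb i n ↔ j = i := by
  constructor
  · rintro (h | ⟨m, -, h⟩)
    · exact lim_inj h
    · exact absurd h.symm (iso_ne_lim _ _)
  · rintro rfl
    exact lim_mem_nb _ _

theorem iso_mem_nb_iff {i : F.I} {n : ℕ} {p : ℝ} :
    (iso p : Pt F) ∈ nb i n ↔ ∃ m, n ≤ m ∧ p = F.a i m := by
  constructor
  · rintro (h | ⟨m, hm, h⟩)
    · exact absurd h (iso_ne_lim _ _)
    · exact ⟨m, hm, iso_inj h⟩
  · rintro ⟨m, hm, rfl⟩
    exact Or.inr ⟨m, hm, rfl⟩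

theorem a_mem_nb_iff {i : F.I} {n m : ℕ} : (iso (F.a i m) : Pt F) ∈ nb i n ↔ n ≤ m := by
  rw [iso_mem_nb_iff]
  constructor
  · rintro ⟨k, hk, h⟩
    rw [F.inj i h]
    exact hk
  · intro h
    exact ⟨m, h, rfl⟩

theorem nb_subset_nb {i : F.I} {n m : ℕ} : nb i n ⊆ (nb i m : Set (Pt F)) ↔ m ≤ n := by
  constructor
  · intro h
    exact a_mem_nb_iff.1 (h (a_mem_nb_iff.2 le_rfl))
  · rintro h x (hx | ⟨k, hk, hx⟩)
    · exact Or.inl hx
    · exact Or.inr ⟨k, h.trans hk, hx⟩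

theorem isOpen_nb (i : F.I) (n : ℕ) : IsOpen (nb i n : Set (Pt F)) := by
  rw [isOpen_iff]
  intro j hj
  rw [lim_mem_nb_iff] at hj
  subst hj
  refine (Set.finite_lt_nat n).subset ?_
  intro m hm
  rw [Set.mem_ofPred_eq, a_mem_nb_iff] at hm
  exact not_le.1 hm

theorem isOpen_iso (p : ℝ) : IsOpen ({iso p} : Set (Pt F)) := by
  rw [isOpen_iff]
  intro i hi
  exact absurd hi.symm (iso_ne_lim _ _)

theorem isCompact_nb (i : F.I) (n : ℕ) : IsCompact (nb i n : Set (Pt F)) := by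
  rw [isCompact_iff_finite_subcover]
  intro ι U hU hcov
  obtain ⟨k, hk⟩ := mem_iUnion.1 (hcov (lim_mem_nb i n))
  have hfin := isOpen_iff.1 (hU k) i hk
  have hex : ∀ m : ℕ, ∃ l, n ≤ m → iso (F.a i m) ∈ U l := by
    intro m
    by_cases h : n ≤ m
    · obtain ⟨l, hl⟩ := mem_iUnion.1 (hcov (a_mem_nb_iff.2 h))
      exact ⟨l, fun _ => hl⟩
    · exact ⟨k, fun h' => absurd h' h⟩
  choose g hg using hex
  classical
  refine ⟨insert k (hfin.toFinset.image g), ?_⟩
  rintro x (hx | ⟨m, hm, rfl⟩)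
  · rw [hx]
    exact mem_iUnion₂.2 ⟨k, Finset.mem_insert_self _ _, hk⟩
  · by_cases h : iso (F.a i m) ∈ U k
    · exact mem_iUnion₂.2 ⟨k, Finset.mem_insert_self _ _, h⟩
    · refine mem_iUnion₂.2 ⟨g m, ?_, hg m hm⟩
      exact Finset.mem_insert_of_mem (Finset.mem_image_of_mem _ (by simpa using h))

/-- The base. -/
def base (F : Fam) : Set (Set (Pt F)) :=
  {S | (∃ p : ℝ, S = {iso p}) ∨ ∃ (i : F.I) (n : ℕ), S = nb i n}

theorem isBasis_base : IsTopologicalBasis (base F) := by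
  apply isTopologicalBasis_of_isOpen_of_nhds
  · rintro S (⟨p, rfl⟩ | ⟨i, n, rfl⟩)
    · exact isOpen_iso p
    · exact isOpen_nb i n
  · intro x U hx hU
    rcases pt_cases x with ⟨p, rfl⟩ | ⟨i, rfl⟩
    · exact ⟨{iso p}, Or.inl ⟨p, rfl⟩, rfl, by rintro _ rfl; exact hx⟩
    · have hfin := isOpen_iff.1 hU i hx
      obtain ⟨n, hn⟩ := hfin.bddAbove
      refine ⟨nb i (n + 1), Or.inr ⟨i, n + 1, rfl⟩, lim_mem_nb _ _, ?_⟩
      rintro y (hy | ⟨m, hm, rfl⟩)
      · rw [hy]; exact hx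
      · by_contra hcon
        have := hn (show m ∈ {n | iso (F.a i n) ∉ U} from hcon)
        omega

instance : T2Space (Pt F) := by
  constructor
  have hsymm : ∀ (p : ℝ) (i : F.I), ∃ u v : Set (Pt F), IsOpen u ∧ IsOpen v ∧
      iso p ∈ u ∧ lim i ∈ v ∧ Disjoint u v := by
    intro p i
    by_cases h : ∃ m, p = F.a i m
    · obtain ⟨m, rfl⟩ := h
      refine ⟨_, _, isOpen_iso _, isOpen_nb i (m + 1), rfl, lim_mem_nb _ _, ?_⟩
      rw [Set.disjoint_singleton_left, a_mem_nb_iff]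
      omega
    · refine ⟨_, _, isOpen_iso _, isOpen_nb i 0, rfl, lim_mem_nb _ _, ?_⟩
      rw [Set.disjoint_singleton_left, iso_mem_nb_iff]
      rintro ⟨m, -, hm⟩
      exact h ⟨m, hm⟩
  intro x y hxy
  rcases pt_cases x with ⟨p, rfl⟩ | ⟨i, rfl⟩ <;> rcases pt_cases y with ⟨q, rfl⟩ | ⟨j, rfl⟩
  · refine ⟨_, _, isOpen_iso p, isOpen_iso q, rfl, rfl, ?_⟩
    rw [Set.disjoint_singleton_left]
    exact hxy
  · exact hsymm p j
  · obtain ⟨u, v, hu, hv, h1, h2, h3⟩ := hsymm q i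
    exact ⟨v, u, hv, hu, h2, h1, h3.symm⟩
  · have hij : i ≠ j := fun h => hxy (by rw [h])
    obtain ⟨n, hn⟩ := (F.ad i j hij).bddAbove
    refine ⟨_, _, isOpen_nb i (n + 1), isOpen_nb j 0, lim_mem_nb _ _, lim_mem_nb _ _, ?_⟩
    rw [Set.disjoint_left]
    rintro z (hz | ⟨m, hm, rfl⟩) hz2
    · rw [hz, lim_mem_nb_iff] at hz2
      exact hij hz2
    · rw [iso_mem_nb_iff] at hz2
      obtain ⟨k, -, hk⟩ := hz2
      have := hn (show m ∈ {n | F.a i n ∈ range (F.a j)} from ⟨k, hk.symm⟩)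
      omega

theorem isCompact_of_mem_base {S : Set (Pt F)} (hS : S ∈ base F) : IsCompact S := by
  rcases hS with ⟨p, rfl⟩ | ⟨i, n, rfl⟩
  · exact isCompact_singleton
  · exact isCompact_nb i n

instance : LocallyCompactSpace (Pt F) := by
  refine ⟨fun x n hn => ?_⟩
  obtain ⟨S, hS, hxS, hSn⟩ := isBasis_base.mem_nhds_iff.1 hn
  exact ⟨S, (isBasis_base.isOpen hS).mem_nhds hxS, hSn, isCompact_of_mem_base hS⟩

instance : FirstCountableTopology (Pt F) := by
  refine ⟨fun x => ?_⟩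
  rcases pt_cases x with ⟨p, rfl⟩ | ⟨i, rfl⟩
  · have : nhds (iso p : Pt F) = pure (iso p) := by
      rw [← isOpen_singleton_iff_nhds_eq_pure]
      exact isOpen_iso p
    rw [this]
    infer_instance
  · have hb : (nhds (lim i : Pt F)).HasBasis (fun _ : ℕ => True) (fun n => nb i n) := by
      constructor
      intro t
      constructor
      · intro ht
        obtain ⟨S, hS, hxS, hSn⟩ := isBasis_base.mem_nhds_iff.1 ht
        rcases hS with ⟨p, rfl⟩ | ⟨j, n, rfl⟩
        · exact absurd hxS.symm (iso_ne_lim _ _)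
        · rw [lim_mem_nb_iff] at hxS
          subst hxS
          exact ⟨n, trivial, hSn⟩
      · rintro ⟨n, -, hn⟩
        exact Filter.mem_of_superset ((isOpen_nb i n).mem_nhds (lim_mem_nb i n)) hn
    exact hb.isCountablyGenerated

/-! ### Noetherian -/

theorem base_noetherian : IsNoetherianFamily (base F) := by
  refine ⟨⟨{iso 0}, Or.inl ⟨0, rfl⟩⟩, ?_, ?_⟩
  · rintro (⟨p, hp⟩ | ⟨i, n, hn⟩)
    · exact absurd hp.symm (Set.singleton_ne_empty _)
    · have := lim_mem_nb (F := F) i n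
      rw [← hn] at this
      exact this
  · rintro ⟨f, hf, hlt⟩
    -- the second set is not a singleton
    have hmono : Monotone f := monotone_nat_of_le_succ (fun n => (hlt n).1)
    have h1 : ∃ i, lim i ∈ f 1 := by
      rcases hf 1 with ⟨p, hp⟩ | ⟨i, n, hn⟩
      · exfalso
        have h01 := hlt 0
        rw [show (0 : ℕ) + 1 = 1 from rfl, hp, Set.ssubset_singleton_iff] at h01
        rcases hf 0 with ⟨q, hq⟩ | ⟨i, n, hn⟩
        · rw [h01] at hq
          exact absurd hq.symm (Set.singleton_ne_empty _)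
        · have := lim_mem_nb (F := F) i n
          rw [← hn, h01] at this
          exact this
      · exact ⟨i, hn ▸ lim_mem_nb i n⟩
    obtain ⟨i, hi⟩ := h1
    have hform : ∀ n, ∃ m, f (n + 1) = nb i m := by
      intro n
      have hin : lim i ∈ f (n + 1) := hmono (Nat.le_add_left 1 n) hi
      rcases hf (n + 1) with ⟨p, hp⟩ | ⟨j, m, hm⟩
      · rw [hp] at hin
        exact absurd hin.symm (iso_ne_lim _ _)
      · rw [hm, lim_mem_nb_iff] at hin
        subst hin
        exact ⟨m, hm⟩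
    choose g hg using hform
    have hdec : ∀ n, g (n + 1) < g n := by
      intro n
      have h := hlt (n + 1)
      rw [hg n, hg (n + 1)] at h
      have h1 := nb_subset_nb.1 h.1
      have h2 : ¬ g n ≤ g (n + 1) := fun h' => h.2 (nb_subset_nb.2 h')
      omega
    have : ∀ n, g n + n ≤ g 0 := by
      intro n
      induction n with
      | zero => simp
      | succ n ih => have := hdec n; omega
    have := this (g 0 + 1)
    omega

theorem noeth_subset {X : Type} {𝒜 ℬ : Set (Set X)} (h : IsNoetherianFamily 𝒜) (hs : ℬ ⊆ 𝒜)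
    (hne : ℬ.Nonempty) : IsNoetherianFamily ℬ :=
  ⟨hne, fun h0 => h.2.1 (hs h0), fun ⟨f, hf, hlt⟩ => h.2.2 ⟨f, fun n => hs (hf n), hlt⟩⟩

/-! ### The rank of a base contained in `base F` -/

section Sub

variable {ℬ : Set (Set (Pt F))} (hsub : ℬ ⊆ base F) (hbas : IsTopologicalBasis ℬ)
  (hN : IsNoetherianFamily ℬ)

include hsub hbas

omit hsub in
theorem iso_mem (p : ℝ) : ({iso p} : Set (Pt F)) ∈ ℬ := by
  obtain ⟨S, hS, hxS, hSn⟩ := hbas.exists_subset_of_mem_open (mem_singleton (iso p : Pt F))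
    (isOpen_iso p)
  have : S = {iso p} := subset_antisymm hSn (by rintro _ rfl; exact hxS)
  rwa [← this]

theorem nb_mem (i : F.I) (m : ℕ) : ∃ n, m ≤ n ∧ (nb i n : Set (Pt F)) ∈ ℬ := by
  obtain ⟨S, hS, hxS, hSn⟩ := hbas.exists_subset_of_mem_open (lim_mem_nb (F := F) i m)
    (isOpen_nb i m)
  rcases hsub hS with ⟨p, rfl⟩ | ⟨j, n, rfl⟩
  · exact absurd hxS.symm (iso_ne_lim _ _)
  · rw [lim_mem_nb_iff] at hxS
    subst hxS
    exact ⟨n, nb_subset_nb.1 hSn, hS⟩

omit hbas in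
theorem height_nb_le (i : F.I) (n : ℕ) : height hN (nb i n) ≤ n := by
  induction n using Nat.strong_induction_on with
  | _ n ih =>
    apply height_le
    intro B hB _ hlt
    have hin : lim i ∈ B := hlt.1 (lim_mem_nb i n)
    rcases hsub hB with ⟨p, rfl⟩ | ⟨j, m, rfl⟩
    · exact absurd hin.symm (iso_ne_lim _ _)
    · rw [lim_mem_nb_iff] at hin
      subst hin
      have h1 := nb_subset_nb.1 hlt.1
      have h2 : ¬ n ≤ m := fun h' => hlt.2 (nb_subset_nb.2 h')
      have hmn : m < n := by omega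
      exact (ih m hmn).trans_lt (by exact_mod_cast hmn)

omit hbas in
theorem height_le_omega (S : Set (Pt F)) (hS : S ∈ ℬ) : height hN S ≤ Ordinal.omega0 := by
  rcases hsub hS with ⟨p, rfl⟩ | ⟨i, n, rfl⟩
  · apply height_le
    intro B hB _ hlt
    rcases hsub hB with ⟨q, rfl⟩ | ⟨j, m, rfl⟩
    · exfalso
      rw [Set.ssubset_singleton_iff] at hlt
      exact absurd hlt (Set.singleton_ne_empty _)
    · exact (height_nb_le hsub hN j m).trans_lt (Ordinal.natCast_lt_omega0 m)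
  · exact (height_nb_le hsub hN i n).trans (Ordinal.natCast_lt_omega0 n).le

theorem exists_large (i : F.I) (k : ℕ) :
    ∃ n, (nb i n : Set (Pt F)) ∈ ℬ ∧ (k : Ordinal.{0}) ≤ height hN (nb i n) := by
  induction k with
  | zero =>
    obtain ⟨n, -, hn⟩ := nb_mem hsub hbas i 0
    exact ⟨n, hn, by simp⟩
  | succ k ih =>
    obtain ⟨n, hn, hk⟩ := ih
    obtain ⟨m, hm, hmem⟩ := nb_mem hsub hbas i (n + 1)
    refine ⟨m, hmem, ?_⟩
    have hlt : height hN (nb i n) < height hN (nb i m) := by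
      apply height_lt hN hmem hn
      refine ⟨nb_subset_nb.2 (by omega), fun h => ?_⟩
      have := nb_subset_nb.1 h
      omega
    have : (k : Ordinal.{0}) < height hN (nb i m) := hk.trans_lt hlt
    have := Order.succ_le_of_lt this
    simpa using this

theorem exists_omega_le : ∃ S ∈ ℬ, Ordinal.omega0 ≤ height hN S := by
  by_contra hcon
  push Not at hcon
  have h1 : ∀ p : ℝ, ∃ k : ℕ, height hN {iso p} = k := by
    intro p
    obtain ⟨k, hk⟩ := Ordinal.lt_omega0.1 (hcon _ (iso_mem hbas p))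
    exact ⟨k, hk⟩
  choose k hk using h1
  obtain ⟨j, hj⟩ : ∃ j : ℕ, (k ⁻¹' {j}).Infinite := by
    by_contra hfin
    push Not at hfin
    have hc : (Set.univ : Set ℝ).Countable := by
      have : (Set.univ : Set ℝ) = ⋃ j : ℕ, k ⁻¹' {j} := by
        ext x
        simp
      rw [this]
      exact countable_iUnion (fun j => (hfin j).countable)
    exact Cardinal.not_countable_real hc
  obtain ⟨i, hi⟩ := F.mad _ hj
  obtain ⟨n, hn, hle⟩ := exists_large hsub hbas hN i j
  obtain ⟨m, hm, hnm⟩ := hi.exists_gt n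
  have hlt : height hN (nb i n) < height hN {iso (F.a i m)} := by
    apply height_lt hN (iso_mem hbas _) hn
    refine ⟨?_, fun h => ?_⟩
    · rintro _ rfl
      exact a_mem_nb_iff.2 hnm.le
    · exact iso_ne_lim _ _ (h (lim_mem_nb i n)).symm
  rw [hk] at hlt
  have hm' : k (F.a i m) = j := hm
  rw [hm'] at hlt
  exact absurd hlt (not_lt.2 hle)

include hN in
theorem rank_eq : rank ℬ = Ordinal.omega0 + 1 := by
  rw [rank_eq_of hN (height_le_omega hsub hN) (exists_omega_le hsub hbas hN)]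
  exact Order.succ_eq_add_one _

end Sub

/-- There is a first countable, locally compact Hausdorff space `X` with a Noetherian base `B`,
consisting of compact open sets, of rank `ω + 1` (which is not a cardinal), such that every
Noetherian base contained in `B` has rank `ω + 1 > |ω + 1| = ω`. -/
theorem result : ∃ (X : Type) (_ : TopologicalSpace X),
    T2Space X ∧ LocallyCompactSpace X ∧ FirstCountableTopology X ∧
    ∃ B : Set (Set X), IsNoetherianBase B ∧ (∀ U ∈ B, IsCompact U) ∧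
      rank B = Ordinal.omega0 + 1 ∧ (rank B).card.ord < rank B ∧
      ∀ B' ⊆ B, IsNoetherianBase B' →
        rank B' = Ordinal.omega0 + 1 ∧ (rank B).card.ord < rank B' := by
  obtain ⟨F⟩ := exists_fam
  have hcard : (Ordinal.omega0 + 1 : Ordinal.{0}).card.ord < Ordinal.omega0 + 1 := by
    have : (Ordinal.omega0 + 1 : Ordinal.{0}).card = Cardinal.aleph0 := by
      simp
    rw [this, Cardinal.ord_aleph0]
    exact lt_add_one _
  have hrank : rank (base F) = Ordinal.omega0 + 1 :=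
    rank_eq (F := F) (ℬ := base F) subset_rfl isBasis_base base_noetherian
  refine ⟨Pt F, inferInstance, inferInstance, inferInstance, inferInstance, base F,
    ⟨isBasis_base, base_noetherian⟩, fun U hU => isCompact_of_mem_base hU, hrank, ?_, ?_⟩
  · rw [hrank]; exact hcard
  · intro B' hB' hN
    have h := rank_eq (F := F) hB' hN.1 hN.2
    rw [h, hrank]
    exact ⟨rfl, hcard⟩

end Pool.Agent.Results.MP_5675d3_gt.PsiSpace
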